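import Pool.Agent.H741R2.DBRed

/-!
# Recognising induced subgraphs of binary De Bruijn graphs is NP-hard

`Linf 2` is the membership problem for `𝓛_∞^2`: given the vertex list and the arc list of a
digraph, is it isomorphic to a vertex-induced subgraph of the De Bruijn graph `B(2, k)` for some
`k ≥ 1`?

The reduction is from 4-colourability.  The instance is the line digraph of a digraph `H`.  A
labelling of the line digraph with words of length `k + 1` is the same as labels of length `k` for
the vertices of `H`, such that along an arc the label is shifted by one letter.  `H` has a root for
each vertex `x` of the graph; a binary out-tree of logarithmic depth below the root of `x` leads to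
one leg for each edge at `x`.  Two letters of the label of the root of `x` (its colour) are the
first two letters of the labels of all legs of `x` at a certain height `g`, and for each edge `xy`
a side branch forces the labels of the two legs at height `g` to agree in all other letters.  So
adjacent vertices must get different colours.  A long path (polynomial length) forces `k > g`.
-/

namespace Pool.Agent.Results.MP_868529_lc.BinaryNPHard

open Pool.Agent.NPC Pool.Agent.H741R2 Pool.Agent.H692R2

/-- **The membership problem for `𝓛_∞^2` is NP-hard.** -/
theorem result : NPHardP (Linf 2) :=
  (((hardPr_col 4 (by norm_num)).trans red_poly (Pr' := IsDigraph)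
    (fun E _ => ldig_isDigraph _) (Q := fun I => Linf 2 I) (fun E hE => by
      rw [red_correct hE]
      exact ⟨fun h => ⟨ldig_isDigraph _, h⟩, fun h => h.2⟩)).toHardI).toNPHardP

end Pool.Agent.Results.MP_868529_lc.BinaryNPHard
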